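import Pool.Agent.W739.CY.Stm

set_option autoImplicit false

namespace Pool.Agent.W959.CY
open Pool.Agent.W739.CY
open Finset

section stt
variable {C : Type}

theorem st_congr [Fintype C] (f g : List C → ℝ) (s : List (Option C))
    (h : ∀ w, w.length = s.length → f w = g w) : st f s = st g s := by
  induction s generalizing f g with
  | nil => exact h [] rfl
  | cons a s ih =>
    cases a with
    | none =>
      simp only [st]
      refine Finset.sum_congr rfl fun x _ => ih _ _ fun w hw => h _ (by simp [hw])
    | some x =>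
      simp only [st]
      exact ih _ _ fun w hw => h _ (by simp [hw])

theorem st_append [Fintype C] (f : List C → ℝ) (s t : List (Option C)) :
    st f (s ++ t) = st (fun w => st (fun w' => f (w ++ w')) t) s := by
  induction s generalizing f with
  | nil => simp [st]
  | cons a s ih => cases a <;> simp [st, ih]

theorem st_sum [Fintype C] {ι : Type} (S : Finset ι) (f : ι → List C → ℝ) (s : List (Option C)) :
    st (fun w => ∑ i ∈ S, f i w) s = ∑ i ∈ S, st (f i) s := by
  induction s generalizing f with
  | nil => rfl
  | cons a s ih =>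
    cases a with
    | none =>
      simp only [st]
      rw [Finset.sum_comm]
      exact Finset.sum_congr rfl fun x _ => ih _
    | some x =>
      simp only [st]
      exact ih _

theorem st_mul [Fintype C] (c : ℝ) (f : List C → ℝ) (s : List (Option C)) :
    st (fun w => c * f w) s = c * st f s := by
  induction s generalizing f with
  | nil => rfl
  | cons a s ih =>
    cases a with
    | none =>
      simp only [st]
      rw [Finset.mul_sum]
      exact Finset.sum_congr rfl fun x _ => ih _
    | some x =>
      simp only [st]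
      exact ih _

theorem st_comm [Fintype C] (f : List C → List C → ℝ) (s t : List (Option C)) :
    st (fun w => st (fun w' => f w w') t) s = st (fun w' => st (fun w => f w w') s) t := by
  induction s generalizing f with
  | nil => rfl
  | cons a s ih =>
    cases a with
    | none =>
      simp only [st]
      rw [st_sum]
      exact Finset.sum_congr rfl fun x _ => ih _
    | some x =>
      simp only [st]
      exact ih _

theorem st_nonneg [Fintype C] (f : List C → ℝ) (s : List (Option C)) (h : ∀ w, 0 ≤ f w) :
    0 ≤ st f s := by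
  induction s generalizing f with
  | nil => exact h []
  | cons a s ih =>
    cases a with
    | none =>
      simp only [st]
      exact Finset.sum_nonneg fun x _ => ih _ fun w => h _
    | some x =>
      simp only [st]
      exact ih _ fun w => h _

theorem sum_st [Fintype C] [DecidableEq C] (n : ℕ) (f : List C → ℝ) (s : Fin n → Option C) :
    ∑ x : Fin n → C, (if ∀ i, s i = none ∨ s i = some (x i) then f (List.ofFn x) else 0) =
      st f (List.ofFn s) := by
  induction n generalizing f with
  | zero => simp [st]
  | succ n ih =>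
    rw [← (Fin.consEquiv (fun _ => C)).sum_comp, Fintype.sum_prod_type, List.ofFn_succ]
    cases h0 : s 0 with
    | none =>
      simp only [st]
      refine Finset.sum_congr rfl fun x _ => ?_
      rw [← ih]
      refine Finset.sum_congr rfl fun y _ => ?_
      simp [Fin.forall_fin_succ, h0, Fin.consEquiv]
    | some c =>
      simp only [st]
      rw [← ih]
      rw [Finset.sum_eq_single c]
      · refine Finset.sum_congr rfl fun y _ => ?_
        simp [Fin.forall_fin_succ, h0, Fin.consEquiv]
      · intro b _ hb
        refine Finset.sum_eq_zero fun y _ => ?_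
        rw [if_neg]
        intro h
        have h1 := h 0
        rw [h0] at h1
        simp [Fin.consEquiv] at h1
        exact hb h1.symm
      · intro h
        exact absurd (Finset.mem_univ _) h

theorem st_rep [Fintype C] (k : ℕ) (f : List C → ℝ) :
    st f (List.replicate k none) = ∑ s : Fin k → C, f (List.ofFn s) := by
  classical
  rw [← List.ofFn_const, ← sum_st]
  simp

end stt

section data
variable {q k : ℕ} (D : Data q k)

theorem cy_rotate (w : List (Fin q)) (r : ℕ) : D.Cy (w.rotate r) = D.Cy w := by
  induction r generalizing w with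
  | zero => simp
  | succ r ih =>
    cases w with
    | nil => simp
    | cons a w => rw [List.rotate_cons_succ, ih, ← D.Cy_rot]

theorem st_rot (a : Option (Fin q)) (s : List (Option (Fin q))) :
    st D.Cy (s ++ [a]) = st D.Cy (a :: s) := by
  rw [st_append]
  cases a with
  | none =>
    simp only [st]
    rw [← st_sum]
    refine st_congr _ _ _ fun w _ => Finset.sum_congr rfl fun x _ => ?_
    exact (D.Cy_rot x w).symm
  | some x =>
    simp only [st]
    exact st_congr _ _ _ fun w _ => (D.Cy_rot x w).symm

theorem st_rotate (s : List (Option (Fin q))) (r : ℕ) :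
    st D.Cy (s.rotate r) = st D.Cy s := by
  induction r generalizing s with
  | zero => simp
  | succ r ih =>
    cases s with
    | nil => simp
    | cons a s => rw [List.rotate_cons_succ, ih, st_rot]

theorem st_isRot {s t : List (Option (Fin q))} (h : s.IsRotated t) :
    st D.Cy s = st D.Cy t := by
  obtain ⟨r, rfl⟩ := h
  exact (st_rotate D s r).symm

theorem cy_star (s : List (Option (Fin q))) (h : 3 ≤ s.length + k) :
    st D.Cy (s ++ List.replicate k none) = st D.P s := by
  rw [st_append]
  refine st_congr _ _ _ fun w hw => ?_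
  rw [st_rep]
  exact D.Cy_star w (by omega)

theorem p_star (s t : List (Option (Fin q))) :
    st D.P (s ++ List.replicate k none ++ t) = st D.P s * st D.P t := by
  rw [st_append, st_append]
  have h1 : ∀ w : List (Fin q),
      st (fun w' => st (fun w'' => D.P (w ++ w' ++ w'')) t) (List.replicate k none) =
        D.P w * st D.P t := by
    intro w
    rw [st_comm]
    rw [← st_mul]
    refine st_congr _ _ _ fun w'' _ => ?_
    rw [st_rep]
    exact D.P_star w w''
  rw [st_congr _ (fun w => st D.P t * D.P w) s (fun w _ => by rw [mul_comm]; exact h1 w)]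
  rw [st_mul, mul_comm]

theorem N_zero : st D.P (List.replicate 0 none) = 1 := D.P_nil

theorem N_add (a b : ℕ) : st D.P (List.replicate (a + k + b) none) =
    st D.P (List.replicate a none) * st D.P (List.replicate b none) := by
  rw [← p_star, ← List.replicate_add, ← List.replicate_add]

theorem N_one (h1 : 1 ≤ k) (h2 : k ≤ 2) (m : ℕ) : st D.P (List.replicate m none) = 1 := by
  have h0 := N_zero D
  rcases Nat.lt_or_ge k 2 with h | h
  · have hk : k = 1 := by omega
    subst hk
    induction m with
    | zero => exact h0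
    | succ m ih =>
      have := N_add D m 0
      rw [ih, h0, add_zero, one_mul] at this
      exact this
  · have hk : k = 2 := by omega
    subst hk
    have hN1 : st D.P (List.replicate 1 none) = 1 := by
      have e1 : st D.P (List.replicate 2 none) =
          st D.P (List.replicate 0 none) * st D.P (List.replicate 0 none) := N_add D 0 0
      have e2 : st D.P (List.replicate 4 none) =
          st D.P (List.replicate 2 none) * st D.P (List.replicate 0 none) := N_add D 2 0
      have e3 : st D.P (List.replicate 4 none) =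
          st D.P (List.replicate 1 none) * st D.P (List.replicate 1 none) := N_add D 1 1
      rw [h0, mul_one] at e1 e2
      rw [e1] at e2
      rw [e2] at e3
      have hpos : 0 ≤ st D.P (List.replicate 1 none) := by
        rw [← cy_star D (List.replicate 1 none) (by simp)]
        exact st_nonneg _ _ D.Cy_nonneg
      nlinarith
    induction m using Nat.strong_induction_on with
    | _ m ih =>
      rcases m with _ | _ | m
      · exact h0
      · exact hN1
      · have := N_add D m 0
        rw [ih m (by omega), h0, add_zero, one_mul] at this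
        exact this

end data

section cut
variable {X : Type}

/-- separated supports -/
def SepG (k : ℕ) (a b : X → Prop) (l : List X) : Prop :=
  ∀ l1 x l2 y l3, l = l1 ++ x :: (l2 ++ y :: l3) → (a x ∧ b y ∨ b x ∧ a y) → k ≤ l2.length

theorem SepG.swap {k : ℕ} {a b : X → Prop} {l : List X} (h : SepG k a b l) : SepG k b a l :=
  fun l1 x l2 y l3 hl hh => h l1 x l2 y l3 hl hh.symm

theorem SepG.suffix {k : ℕ} {a b : X → Prop} {p l : List X} (h : SepG k a b (p ++ l)) :
    SepG k a b l :=
  fun l1 x l2 y l3 hl hh => h (p ++ l1) x l2 y l3 (by rw [hl, List.append_assoc]) hh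

theorem SepG.left {k : ℕ} {a b : X → Prop} {l p : List X} (h : SepG k a b (l ++ p)) :
    SepG k a b l :=
  fun l1 x l2 y l3 hl hh => h l1 x l2 y (l3 ++ p) (by rw [hl]; simp) hh

theorem first (p : X → Prop) (l : List X) (h : ∃ x ∈ l, p x) :
    ∃ l1 y l2, l = l1 ++ y :: l2 ∧ p y ∧ ∀ z ∈ l1, ¬ p z := by
  classical
  induction l with
  | nil => simp at h
  | cons a l ih =>
    by_cases ha : p a
    · exact ⟨[], a, l, rfl, ha, by simp⟩
    · obtain ⟨x, hx, hpx⟩ := h
      rcases List.mem_cons.1 hx with rfl | hx
      · exact absurd hpx ha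
      · obtain ⟨l1, y, l2, h1, h2, h3⟩ := ih ⟨x, hx, hpx⟩
        refine ⟨a :: l1, y, l2, by rw [h1]; rfl, h2, ?_⟩
        intro z hz
        rcases List.mem_cons.1 hz with rfl | hz
        · exact ha
        · exact h3 z hz

theorem last (p : X → Prop) (l : List X) (h : ∃ x ∈ l, p x) :
    ∃ l1 y l2, l = l1 ++ y :: l2 ∧ p y ∧ ∀ z ∈ l2, ¬ p z := by
  obtain ⟨l1, y, l2, h1, h2, h3⟩ := first p l.reverse (by simpa using h)
  refine ⟨l2.reverse, y, l1.reverse, ?_, h2, ?_⟩
  · have := congrArg List.reverse h1
    rw [List.reverse_reverse] at this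
    rw [this]
    simp
  · intro z hz
    exact h3 z (by simpa using hz)

theorem cut1 {k : ℕ} {a b : X → Prop} {l : List X} (hs : SepG k a b l)
    (hd : ∀ x ∈ l, ¬ (a x ∧ b x)) {l0 : List X} {w : X} {l' : List X} (hl : l = l0 ++ w :: l')
    (h0 : ∀ z ∈ l0, ¬ a z ∧ ¬ b z) (hw : a w) (hb : ∃ x ∈ l, b x) :
    ∃ p m r, l = p ++ m ++ r ∧ (∀ z ∈ p, ¬ b z) ∧ (∀ z ∈ m, ¬ a z ∧ ¬ b z) ∧ m.length = k ∧
      r.length < l.length := by
  have hwl : w ∈ l := by rw [hl]; simp
  have hwb : ¬ b w := fun h => hd w hwl ⟨hw, h⟩
  have hb' : ∃ x ∈ l', b x := by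
    obtain ⟨x, hx, hbx⟩ := hb
    rw [hl] at hx
    rcases List.mem_append.1 hx with hx | hx
    · exact absurd hbx (h0 x hx).2
    · rcases List.mem_cons.1 hx with rfl | hx
      · exact absurd hbx hwb
      · exact ⟨x, hx, hbx⟩
  obtain ⟨m, y, l'', e1, hy, hm⟩ := first b l' hb'
  obtain ⟨a1, x, a2, e2, hx, ha2⟩ := last a (w :: m) ⟨w, by simp, hw⟩
  have hwm : ∀ z ∈ w :: m, ¬ b z := by
    intro z hz
    rcases List.mem_cons.1 hz with rfl | hz
    · exact hwb
    · exact hm z hz
  have e3 : l = (l0 ++ a1) ++ x :: (a2 ++ y :: l'') := by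
    rw [hl, e1]
    have : w :: (m ++ y :: l'') = (w :: m) ++ y :: l'' := rfl
    rw [this, e2]
    simp
  have hk := hs _ _ _ _ _ e3 (Or.inl ⟨hx, hy⟩)
  refine ⟨l0 ++ a1 ++ [x], a2.take k, a2.drop k ++ y :: l'', ?_, ?_, ?_, ?_, ?_⟩
  · have e5 : a2 ++ y :: l'' = a2.take k ++ (a2.drop k ++ y :: l'') := by
      rw [← List.append_assoc, List.take_append_drop]
    rw [e3, e5]
    simp only [List.append_assoc, List.cons_append, List.nil_append]
  · intro z hz
    rcases List.mem_append.1 hz with hz | hz
    · rcases List.mem_append.1 hz with hz | hz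
      · exact (h0 z hz).2
      · exact hwm z (by rw [e2]; simp [hz])
    · rw [List.mem_singleton] at hz
      rw [hz]
      exact hwm x (by rw [e2]; simp)
  · intro z hz
    have hz' := List.mem_of_mem_take hz
    exact ⟨ha2 z hz', hwm z (by rw [e2]; simp [hz'])⟩
  · rw [List.length_take]
    omega
  · rw [e3]
    simp
    omega

theorem cut {k : ℕ} {a b : X → Prop} {l : List X} (hs : SepG k a b l)
    (hd : ∀ x ∈ l, ¬ (a x ∧ b x)) (ha : ∃ x ∈ l, a x) (hb : ∃ x ∈ l, b x) :
    ∃ p m r, l = p ++ m ++ r ∧ ((∀ z ∈ p, ¬ b z) ∨ (∀ z ∈ p, ¬ a z)) ∧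
      (∀ z ∈ m, ¬ a z ∧ ¬ b z) ∧ m.length = k ∧ r.length < l.length := by
  obtain ⟨l0, w, l', e1, hw, h0⟩ := first (fun x => a x ∨ b x) l (by
    obtain ⟨x, hx, hax⟩ := ha
    exact ⟨x, hx, Or.inl hax⟩)
  have h0' : ∀ z ∈ l0, ¬ a z ∧ ¬ b z := fun z hz => not_or.1 (h0 z hz)
  rcases hw with hw | hw
  · obtain ⟨p, m, r, h1, h2, h3, h4, h5⟩ := cut1 hs hd e1 h0' hw hb
    exact ⟨p, m, r, h1, Or.inl h2, h3, h4, h5⟩
  · obtain ⟨p, m, r, h1, h2, h3, h4, h5⟩ := cut1 hs.swap (fun x hx h => hd x hx h.symm) e1
      (fun z hz => (h0' z hz).symm) hw ha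
    exact ⟨p, m, r, h1, Or.inr h2, fun z hz => (h3 z hz).symm, h4, h5⟩

theorem cutc {k : ℕ} {a b : X → Prop} {l : List X}
    (hs : ∀ l', l.IsRotated l' → SepG k a b l')
    (hd : ∀ x ∈ l, ¬ (a x ∧ b x)) (ha : ∃ x ∈ l, a x) (hb : ∃ x ∈ l, b x) :
    ∃ p m, l.IsRotated (p ++ m) ∧ (∀ z ∈ m, ¬ a z ∧ ¬ b z) ∧ m.length = k := by
  obtain ⟨x, hx, hax⟩ := ha
  obtain ⟨u, v, rfl⟩ := List.append_of_mem hx
  have hbx : ¬ b x := fun h => hd x hx ⟨hax, h⟩
  have hb' : ∃ z ∈ v ++ u, b z := by
    obtain ⟨z, hz, hbz⟩ := hb
    refine ⟨z, ?_, hbz⟩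
    rcases List.mem_append.1 hz with hz | hz
    · exact List.mem_append.2 (Or.inr hz)
    · rcases List.mem_cons.1 hz with rfl | hz
      · exact absurd hbz hbx
      · exact List.mem_append.2 (Or.inl hz)
  obtain ⟨m1, y, m2, e1, hy, hm2⟩ := last b (v ++ u) hb'
  have r1 : (u ++ x :: v).IsRotated (x :: (v ++ u)) := by
    have := List.isRotated_append (l := u) (l' := x :: v)
    simpa using this
  have r2 : (x :: (v ++ u)).IsRotated (y :: (m2 ++ x :: m1)) := by
    rw [e1]
    have := List.isRotated_append (l := x :: m1) (l' := y :: m2)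
    simpa using this
  obtain ⟨c1, z, c2, e2, hz, hc1⟩ := first a (m2 ++ [x]) ⟨x, by simp, hax⟩
  have e3 : m2 ++ x :: m1 = c1 ++ z :: (c2 ++ m1) := by
    have : m2 ++ x :: m1 = (m2 ++ [x]) ++ m1 := by simp
    rw [this, e2]
    simp
  have hk := hs _ (r1.trans r2) [] y c1 z (c2 ++ m1) (by rw [e3]; rfl) (Or.inr ⟨hy, hz⟩)
  have hc1b : ∀ t ∈ c1, ¬ a t ∧ ¬ b t := by
    intro t ht
    refine ⟨hc1 t ht, ?_⟩
    have h1 : t ∈ m2 ++ [x] := by rw [e2]; simp [ht]
    rcases List.mem_append.1 h1 with h1 | h1
    · exact hm2 t h1
    · rw [List.mem_singleton] at h1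
      exact absurd hax (h1 ▸ hc1 t ht)
  refine ⟨c1.drop k ++ z :: (c2 ++ m1) ++ [y], c1.take k, ?_, ?_, ?_⟩
  · refine (r1.trans r2).trans ?_
    rw [e3]
    have h2 := List.isRotated_append (l := y :: c1.take k) (l' := c1.drop k ++ z :: (c2 ++ m1))
    have h3 : (y :: c1.take k) ++ (c1.drop k ++ z :: (c2 ++ m1)) =
        y :: (c1 ++ z :: (c2 ++ m1)) := by
      rw [List.cons_append, ← List.append_assoc, List.take_append_drop]
    rw [h3] at h2
    simpa using h2
  · intro t ht
    exact hc1b t (List.mem_of_mem_take ht)
  · rw [List.length_take]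
    omega

end cut

section lin
variable {q k : ℕ} (D : Data q k)

/-- union of two partial colorings -/
def fO {q : ℕ} (p : Option (Fin q) × Option (Fin q)) : Option (Fin q) := p.1.or p.2

theorem rep_of {α β : Type} (f : α → β) (c : β) (l : List α) (h : ∀ x ∈ l, f x = c) :
    l.map f = List.replicate l.length c := by
  rw [List.eq_replicate_iff]
  refine ⟨by simp, ?_⟩
  intro b hb
  obtain ⟨x, hx, rfl⟩ := List.mem_map.1 hb
  exact h x hx

theorem lin (h1 : 1 ≤ k) (h2 : k ≤ 2) (m : ℕ) :
    ∀ l : List (Option (Fin q) × Option (Fin q)), l.length = m →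
    SepG k (fun x => x.1 ≠ none) (fun x => x.2 ≠ none) l →
    (∀ x ∈ l, ¬ (x.1 ≠ none ∧ x.2 ≠ none)) →
    st D.P (l.map fO) = st D.P (l.map Prod.fst) * st D.P (l.map Prod.snd) := by
  have hsnd : ∀ l : List (Option (Fin q) × Option (Fin q)), (∀ x ∈ l, ¬ x.2 ≠ none) →
      st D.P (l.map fO) = st D.P (l.map Prod.fst) * st D.P (l.map Prod.snd) := by
    intro l h
    have e1 : l.map fO = l.map Prod.fst := by
      refine List.map_congr_left fun x hx => ?_
      have := not_not.1 (h x hx)
      unfold fO
      rw [this]
      simp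
    rw [e1, rep_of Prod.snd none l (fun x hx => not_not.1 (h x hx)), N_one D h1 h2, mul_one]
  have hfst : ∀ l : List (Option (Fin q) × Option (Fin q)), (∀ x ∈ l, ¬ x.1 ≠ none) →
      st D.P (l.map fO) = st D.P (l.map Prod.fst) * st D.P (l.map Prod.snd) := by
    intro l h
    have e1 : l.map fO = l.map Prod.snd := by
      refine List.map_congr_left fun x hx => ?_
      have := not_not.1 (h x hx)
      unfold fO
      rw [this]
      simp
    rw [e1, rep_of Prod.fst none l (fun x hx => not_not.1 (h x hx)), N_one D h1 h2, one_mul]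
  induction m using Nat.strong_induction_on with
  | _ m ih =>
    intro l hl hs hd
    by_cases ha : ∃ x ∈ l, x.1 ≠ none
    · by_cases hb : ∃ x ∈ l, x.2 ≠ none
      · obtain ⟨p, c, r, e1, hp, hc, hck, hr⟩ := cut hs hd ha hb
        have hcr : ∀ f : Option (Fin q) × Option (Fin q) → Option (Fin q),
            f (none, none) = none → c.map f = List.replicate k none := by
          intro f hf
          rw [← hck]
          refine rep_of f none c fun x hx => ?_
          have h3 := hc x hx
          have h4 : x = (none, none) := Prod.ext (not_not.1 h3.1) (not_not.1 h3.2)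
          rw [h4]
          exact hf
        have hr2 := ih r.length (by omega) r rfl (by rw [e1] at hs; exact hs.suffix)
          (fun x hx => hd x (by rw [e1]; simp [hx]))
        have hp2 : st D.P (p.map fO) = st D.P (p.map Prod.fst) * st D.P (p.map Prod.snd) := by
          rcases hp with hp | hp
          · exact hsnd p hp
          · exact hfst p hp
        have h5 : ∀ f : Option (Fin q) × Option (Fin q) → Option (Fin q),
            f (none, none) = none →
            st D.P (l.map f) = st D.P (p.map f) * st D.P (r.map f) := by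
          intro f hf
          rw [e1, List.map_append, List.map_append, hcr f hf, p_star]
        rw [h5 fO rfl, h5 Prod.fst rfl, h5 Prod.snd rfl, hp2, hr2]
        ring
      · push Not at hb
        exact hsnd l (fun x hx => not_not.2 (hb x hx))
    · push Not at ha
      exact hfst l (fun x hx => not_not.2 (ha x hx))

theorem circ (h1 : 1 ≤ k) (h2 : k ≤ 2) (l : List (Option (Fin q) × Option (Fin q)))
    (hn : 3 ≤ l.length)
    (hs : ∀ l', l.IsRotated l' → SepG k (fun x => x.1 ≠ none) (fun x => x.2 ≠ none) l')
    (hd : ∀ x ∈ l, ¬ (x.1 ≠ none ∧ x.2 ≠ none)) :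
    st D.Cy (l.map fO) = st D.Cy (l.map Prod.fst) * st D.Cy (l.map Prod.snd) := by
  have htot : st D.Cy (List.replicate l.length none) = 1 := by
    have h3 : l.length = (l.length - k) + k := by omega
    rw [h3, List.replicate_add, cy_star D _ (by simp; omega), N_one D h1 h2]
  by_cases ha : ∃ x ∈ l, x.1 ≠ none
  · by_cases hb : ∃ x ∈ l, x.2 ≠ none
    · obtain ⟨p, c, hrot, hc, hck⟩ := cutc hs hd ha hb
      have hlen : l.length = p.length + k := by
        rw [hrot.perm.length_eq, List.length_append, hck]
      have hcr : ∀ f : Option (Fin q) × Option (Fin q) → Option (Fin q),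
          f (none, none) = none → c.map f = List.replicate k none := by
        intro f hf
        rw [← hck]
        refine rep_of f none c fun x hx => ?_
        have h3 := hc x hx
        have h4 : x = (none, none) := Prod.ext (not_not.1 h3.1) (not_not.1 h3.2)
        rw [h4]
        exact hf
      have h5 : ∀ f : Option (Fin q) × Option (Fin q) → Option (Fin q),
          f (none, none) = none → st D.Cy (l.map f) = st D.P (p.map f) := by
        intro f hf
        rw [st_isRot D (hrot.map f), List.map_append, hcr f hf, cy_star D _ (by simp; omega)]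
      rw [h5 fO rfl, h5 Prod.fst rfl, h5 Prod.snd rfl]
      refine lin D h1 h2 _ p rfl (hs _ hrot).left fun x hx => hd x ?_
      exact hrot.mem_iff.2 (by simp [hx])
    · push Not at hb
      have e1 : l.map fO = l.map Prod.fst := by
        refine List.map_congr_left fun x hx => ?_
        unfold fO
        rw [hb x hx]
        simp
      rw [e1, rep_of Prod.snd none l hb, htot, mul_one]
  · push Not at ha
    have e1 : l.map fO = l.map Prod.snd := by
      refine List.map_congr_left fun x hx => ?_
      unfold fO
      rw [ha x hx]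
      simp
    rw [e1, rep_of Prod.fst none l ha, htot, one_mul]

end lin

section graph

theorem adj_succ {n : ℕ} (hn : 3 ≤ n) (a : ℕ) :
    (SimpleGraph.cycleGraph n).Adj ⟨a % n, Nat.mod_lt _ (by omega)⟩
      ⟨(a + 1) % n, Nat.mod_lt _ (by omega)⟩ := by
  rw [SimpleGraph.cycleGraph_adj']
  right
  rw [Fin.sub_def]
  simp only
  have h1 : a % n < n := Nat.mod_lt _ (by omega)
  have h2 : (a + 1) % n = (a % n + 1) % n := by rw [Nat.add_mod, Nat.mod_eq_of_lt (by omega : 1 < n)]
  rw [h2]
  rcases Nat.lt_or_ge (a % n + 1) n with h3 | h3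
  · rw [Nat.mod_eq_of_lt h3]
    have h4 : n - a % n + (a % n + 1) = n + 1 := by omega
    rw [h4, Nat.add_mod_left, Nat.mod_eq_of_lt (by omega)]
  · have h4 : a % n + 1 = n := by omega
    rw [h4, Nat.mod_self]
    have h5 : n - a % n + 0 = 1 := by omega
    rw [h5, Nat.mod_eq_of_lt (by omega)]

theorem dist_le {n : ℕ} (hn : 3 ≤ n) (a d : ℕ) :
    (SimpleGraph.cycleGraph n).dist ⟨a % n, Nat.mod_lt _ (by omega)⟩
      ⟨(a + d) % n, Nat.mod_lt _ (by omega)⟩ ≤ d := by
  have hc : (SimpleGraph.cycleGraph n).Connected := by
    obtain ⟨m, rfl⟩ : ∃ m, n = m + 1 := ⟨n - 1, by omega⟩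
    exact SimpleGraph.cycleGraph_connected
  induction d with
  | zero => simp
  | succ d ih =>
    have h1 := hc.dist_triangle (u := ⟨a % n, Nat.mod_lt _ (by omega)⟩)
      (v := ⟨(a + d) % n, Nat.mod_lt _ (by omega)⟩)
      (w := ⟨(a + (d + 1)) % n, Nat.mod_lt _ (by omega)⟩)
    have h2 := SimpleGraph.dist_eq_one_iff_adj.2 (adj_succ hn (a + d))
    have h3 : a + (d + 1) = a + d + 1 := by ring
    simp only [h3] at h1 ⊢
    omega

end graph

theorem t_AA : S_AA := by
  intro q k n D h1 h2 hn
  have hmass : ∀ s : Fin n → Option (Fin q), Mass (fun x => D.Cy (List.ofFn x)) s =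
      st D.Cy (List.ofFn s) := by
    intro s
    unfold Mass
    rw [← sum_st]
  refine ⟨?_, ?_, ?_⟩
  · have h3 := sum_st n D.Cy (fun _ => none)
    simp only [true_or, implies_true, if_true] at h3
    rw [h3, List.ofFn_const]
    have h4 : n = (n - k) + k := by omega
    rw [h4, List.replicate_add, cy_star D _ (by simp; omega), N_one D h1 h2]
  · have key : ∀ (x : Fin n → Fin q) (i j : Fin n), (j - i).val = 1 → x i = x j →
        D.Cy (List.ofFn x) = 0 := by
      intro x i j hij hx
      rw [← cy_rotate D _ i.val]
      have hj : (1 + i.val) % n = j.val := by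
        rw [Fin.sub_def] at hij
        simp only at hij
        have hi := i.2
        have hj := j.2
        rcases Nat.lt_or_ge (n - i.val + j.val) n with h | h
        · rw [Nat.mod_eq_of_lt h] at hij
          have h5 : 1 + i.val = n + j.val := by omega
          rw [h5, Nat.add_mod_left, Nat.mod_eq_of_lt hj]
        · rw [Nat.mod_eq_sub_mod h, Nat.mod_eq_of_lt (by omega)] at hij
          have h5 : 1 + i.val = j.val := by omega
          rw [h5, Nat.mod_eq_of_lt hj]
      have hlen : ((List.ofFn x).rotate i.val).length = n := by simp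
      have g0 : ((List.ofFn x).rotate i.val)[0]'(by rw [hlen]; omega) = x i := by
        rw [List.getElem_rotate]
        simp [Nat.mod_eq_of_lt i.2]
      have g1 : ((List.ofFn x).rotate i.val)[1]'(by rw [hlen]; omega) = x j := by
        rw [List.getElem_rotate, List.getElem_ofFn]
        congr 1
        apply Fin.ext
        simpa using hj
      obtain ⟨a, b, L, hL⟩ : ∃ a b L, (List.ofFn x).rotate i.val = a :: b :: L := by
        rcases hL : (List.ofFn x).rotate i.val with _ | ⟨a, _ | ⟨b, L⟩⟩
        · rw [hL] at hlen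
          simp at hlen
          omega
        · rw [hL] at hlen
          simp at hlen
          omega
        · exact ⟨a, b, L, rfl⟩
      simp only [hL, List.getElem_cons_zero, List.getElem_cons_succ] at g0 g1
      rw [hL, g0, g1, hx]
      exact D.Cy_proper _ _
    rintro x ⟨i, j, hadj, hx⟩
    rw [SimpleGraph.cycleGraph_adj'] at hadj
    rcases hadj with h | h
    · exact key x j i h hx.symm
    · exact key x i j h hx
  · intro s t hst
    rw [hmass, hmass, hmass]
    have h3 := circ D h1 h2 (List.ofFn fun i => (s i, t i)) (by simpa using hn) ?_ ?_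
    · rw [List.map_ofFn, List.map_ofFn, List.map_ofFn] at h3
      exact h3
    · rintro l' ⟨r, rfl⟩ l1 x l2 y l3 hl hh
      have hlen : n = l1.length + 1 + l2.length + 1 + l3.length := by
        have := congrArg List.length hl
        simp at this
        omega
      have gx : ((List.ofFn fun i => (s i, t i)).rotate r)[l1.length]'(by simp; omega) = x := by
        simp [hl]
      have gy : ((List.ofFn fun i => (s i, t i)).rotate r)[l1.length + 1 + l2.length]'(by
          simp; omega) = y := by
        have : l1 ++ x :: (l2 ++ y :: l3) = (l1 ++ x :: l2) ++ y :: l3 := by simp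
        simp only [hl, this]
        rw [List.getElem_append_right (by simp; omega)]
        have h0 : l1.length + 1 + l2.length - (l1 ++ x :: l2).length = 0 := by
          simp
          omega
        simp only [h0, List.getElem_cons_zero]
      rw [List.getElem_rotate, List.getElem_ofFn] at gx gy
      simp only [List.length_ofFn] at gx gy
      have hdist := dist_le hn (l1.length + r) (l2.length + 1)
      have e4 : l1.length + r + (l2.length + 1) = l1.length + 1 + l2.length + r := by ring
      simp only [e4] at hdist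
      rcases hh with ⟨ha, hb⟩ | ⟨hb, ha⟩
      · have h5 := hst ⟨(l1.length + r) % n, Nat.mod_lt _ (by omega)⟩
          ⟨(l1.length + 1 + l2.length + r) % n, Nat.mod_lt _ (by omega)⟩
          (by rw [← gx] at ha; exact ha) (by rw [← gy] at hb; exact hb)
        omega
      · have h5 := hst ⟨(l1.length + 1 + l2.length + r) % n, Nat.mod_lt _ (by omega)⟩
          ⟨(l1.length + r) % n, Nat.mod_lt _ (by omega)⟩
          (by rw [← gy] at ha; exact ha) (by rw [← gx] at hb; exact hb)
        rw [SimpleGraph.dist_comm] at h5
        omega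
    · intro x hx hh
      rw [List.mem_ofFn] at hx
      obtain ⟨i, rfl⟩ := hx
      have := hst i i hh.1 hh.2
      rw [SimpleGraph.dist_self] at this
      omega

end Pool.Agent.W959.CY
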